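import Pool.Agent.Y403.RF.Main

/-!
# `Σ_2` sentences separate `F(t)` and `L(t)` for real closed subfields `F`, `L` of `ℝ`

Let `ρ` be a real number such that the set of the rational numbers below `ρ` and the set of the
rational numbers above `ρ` are Diophantine (`DiophCuts`; for example `ρ = e`). Then one `Σ_2`
sentence says in all the fields `F(t)`, `F` a real closed subfield of `ℝ`, that `ρ ∈ F`. No `Σ_1`
sentence separates two of these fields. The case `F = ℝ_alg`, `L = ℝ` is Q1 of MP_397872_lc.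
-/

open FirstOrder FirstOrder.Language Pool.Agent.Y403.RF

namespace Pool.Agent.Results.MP_397872_lc.RealClosedSubfields

/-- * For every real number `ρ` with Diophantine cuts there is a `Σ_2` sentence which holds in
  `ℝ(t)` and which, for every real closed (that is, relatively algebraically closed) subfield `F`
  of `ℝ`, holds in `F(t)` if and only if `ρ ∈ F`.
* If `F` and `L` are real closed subfields of `ℝ` and some real number with Diophantine cuts is
  in `L` but not in `F`, then the least `n` such that a `Σ_n` sentence separates `F(t)` and `L(t)`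
  is `2`; the same is true of `F(t)` and `ℝ(t)` if some real number with Diophantine cuts is not
  in `F`.
* `e` has Diophantine cuts; in particular all this applies to the field of the real algebraic
  numbers. -/
theorem result :
    (∀ ρ : ℝ, DiophCuts ρ → ∃ φ : Language.ring.Sentence, Blocks true 2 φ ∧
      Holds (RatFunc ℝ) φ ∧
      ∀ F : IntermediateField ℚ ℝ, (∀ x : ℝ, IsAlgebraic F x → x ∈ F) →
        (Holds (RatFunc F) φ ↔ ρ ∈ F)) ∧
    (∀ F L : IntermediateField ℚ ℝ, (∀ x : ℝ, IsAlgebraic F x → x ∈ F) →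
      (∀ x : ℝ, IsAlgebraic L x → x ∈ L) → (∃ ρ : ℝ, DiophCuts ρ ∧ ρ ∈ L ∧ ρ ∉ F) →
      IsLeast {n : ℕ | 1 ≤ n ∧ ∃ φ : Language.ring.Sentence, Blocks true n φ ∧
        ¬ (Holds (RatFunc F) φ ↔ Holds (RatFunc L) φ)} 2) ∧
    (∀ F : IntermediateField ℚ ℝ, (∀ x : ℝ, IsAlgebraic F x → x ∈ F) →
      (∃ ρ : ℝ, DiophCuts ρ ∧ ρ ∉ F) →
      IsLeast {n : ℕ | 1 ≤ n ∧ ∃ φ : Language.ring.Sentence, Blocks true n φ ∧
        ¬ (Holds (RatFunc F) φ ↔ Holds (RatFunc ℝ) φ)} 2) ∧
    DiophCuts (Real.exp 1) ∧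
    (∀ x : ℝ, IsAlgebraic (algebraicClosure ℚ ℝ) x → x ∈ algebraicClosure ℚ ℝ) ∧
    IsLeast {n : ℕ | 1 ≤ n ∧ ∃ φ : Language.ring.Sentence, Blocks true n φ ∧
      ¬ (Holds (RatFunc (algebraicClosure ℚ ℝ)) φ ↔ Holds (RatFunc ℝ) φ)} 2 := by
  have hB : ∀ F : IntermediateField ℚ ℝ, (∀ x : ℝ, IsAlgebraic F x → x ∈ F) →
      (∃ ρ : ℝ, DiophCuts ρ ∧ ρ ∉ F) →
      IsLeast {n : ℕ | 1 ≤ n ∧ ∃ φ : Language.ring.Sentence, Blocks true n φ ∧
        ¬ (Holds (RatFunc F) φ ↔ Holds (RatFunc ℝ) φ)} 2 := by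
    rintro F hF ⟨ρ, hρ, hρF⟩
    constructor
    · obtain ⟨φ, h1, h2, h3⟩ := upper hρ
      exact ⟨by norm_num, φ, h1, fun h => hρF ((h3 F hF).1 (h.2 h2))⟩
    · rintro n ⟨hn, φ, h1, h2⟩
      by_contra hlt
      obtain rfl : n = 1 := by omega
      exact h2 (lower F hF φ h1)
  have hA : ∀ x : ℝ, IsAlgebraic (algebraicClosure ℚ ℝ) x → x ∈ algebraicClosure ℚ ℝ := by
    intro x hx
    have h2 : x ∈ algebraicClosure (algebraicClosure ℚ ℝ) ℝ := by
      rwa [mem_algebraicClosure_iff]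
    rw [algebraicClosure.algebraicClosure_eq_bot, IntermediateField.mem_bot] at h2
    obtain ⟨w, hw⟩ := h2
    rw [← hw]
    exact w.2
  refine ⟨fun ρ hρ => upper hρ, ?_, hB, diophCuts_exp, hA,
    hB _ hA ⟨Real.exp 1, diophCuts_exp, fun h =>
      Pool.Agent.H699R2.exp_one_not_algebraic (mem_algebraicClosure_iff.1 h)⟩⟩
  rintro F L hF hL ⟨ρ, hρ, hρL, hρF⟩
  constructor
  · obtain ⟨φ, h1, -, h3⟩ := upper hρ
    exact ⟨by norm_num, φ, h1, fun h => hρF ((h3 F hF).1 (h.2 ((h3 L hL).2 hρL)))⟩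
  · rintro n ⟨hn, φ, h1, h2⟩
    by_contra hlt
    obtain rfl : n = 1 := by omega
    exact h2 ((lower F hF φ h1).trans (lower L hL φ h1).symm)

end Pool.Agent.Results.MP_397872_lc.RealClosedSubfields
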